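import Pool.Agent.P8H15.RM.Stm

/-!
# Project RM: the independence package
-/

set_option autoImplicit false

namespace Pool.Agent.P8H7.RM

open Finset MeasureTheory ProbabilityTheory Filter Topology
open scoped Classical
open Pool.Agent.P8H15.RM

/-- a function of the coordinates in a finite set -/
def Dep (S : Finset ℕ) (F : (ℕ → ℝ) → ℝ) : Prop :=
  ∀ e e' : ℕ → ℝ, (∀ q ∈ S, e q = e' q) → F e = F e'

/-- the sign of a boolean -/
noncomputable def val (b : Bool) : ℝ := if b = true then 1 else -1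

/-- extension of a finite sign pattern -/
noncomputable def ex (S : Finset ℕ) (x : S → Bool) (q : ℕ) : ℝ :=
  if h : q ∈ S then val (x ⟨q, h⟩) else 1

lemma ex_sgn (S : Finset ℕ) (x : S → Bool) : Sgn (ex S x) := by
  intro q
  unfold ex val
  split_ifs <;> simp

section base

variable {Ω : Type} [MeasurableSpace Ω] {P : Measure Ω} {s : ℕ → Ω → ℝ}

/-- the boolean of a sign -/
noncomputable def bl (s : ℕ → Ω → ℝ) (q : ℕ) (ω : Ω) : Bool := decide (s q ω = 1)

lemma bl_meas (hs : Fair P s) (q : ℕ) : Measurable (bl s q) := by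
  apply measurable_to_bool
  have h : bl s q ⁻¹' {true} = s q ⁻¹' {1} := by
    ext ω
    simp [bl]
  rw [h]
  exact hs.meas q (measurableSet_singleton 1)

lemma val_bl (hs : Fair P s) (q : ℕ) (ω : Ω) : val (bl s q ω) = s q ω := by
  unfold val bl
  rcases hs.sgn q ω with h | h
  · simp [h]
  · rw [h]
    norm_num

/-- the sign pattern on a finite set -/
noncomputable def X (s : ℕ → Ω → ℝ) (S : Finset ℕ) (ω : Ω) : S → Bool := fun q => bl s q ω

lemma X_meas (hs : Fair P s) (S : Finset ℕ) : Measurable (X s S) :=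
  measurable_pi_lambda _ fun q => bl_meas hs q

lemma dep_ex (hs : Fair P s) (S : Finset ℕ) (F : (ℕ → ℝ) → ℝ) (hF : Dep S F) (ω : Ω) :
    F (fun q => s q ω) = F (ex S (X s S ω)) := by
  apply hF
  intro q hq
  unfold ex
  rw [dif_pos hq]
  exact (val_bl hs q ω).symm

lemma ind_bl (hs : Fair P s) : iIndepFun (bl s) P := by
  have h := hs.ind.comp (fun _ : ℕ => fun y : ℝ => decide (y = 1)) (fun _ => by
    apply measurable_to_bool
    have : (fun y : ℝ => decide (y = 1)) ⁻¹' {true} = {1} := by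
      ext y
      simp
    rw [this]
    exact measurableSet_singleton 1)
  exact h

lemma int_dep [IsProbabilityMeasure P] (hs : Fair P s) (S : Finset ℕ) (F : (ℕ → ℝ) → ℝ)
    (hF : Dep S F) : Integrable (fun ω => F (fun q => s q ω)) P := by
  have h : (fun ω => F (fun q => s q ω)) = (fun x => F (ex S x)) ∘ (X s S) := by
    funext ω
    exact dep_ex hs S F hF ω
  rw [h]
  apply Integrable.comp_measurable _ (X_meas hs S)
  have := Measure.isProbabilityMeasure_map (μ := P) (X_meas hs S).aemeasurable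
  exact Integrable.of_finite

lemma ind_mul [IsProbabilityMeasure P] (hs : Fair P s) (S T : Finset ℕ) (hST : Disjoint S T)
    (F G : (ℕ → ℝ) → ℝ) (hF : Dep S F) (hG : Dep T G) :
    ∫ ω, F (fun q => s q ω) * G (fun q => s q ω) ∂P =
      (∫ ω, F (fun q => s q ω) ∂P) * ∫ ω, G (fun q => s q ω) ∂P := by
  have h := (ind_bl hs).indepFun_finset S T hST (fun q => bl_meas hs q)
  have h2 := h.comp (φ := fun x => F (ex S x)) (ψ := fun x => G (ex T x))
    (measurable_of_countable _) (measurable_of_countable _)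
  have e1 : (fun ω => F (fun q => s q ω)) = (fun x => F (ex S x)) ∘
      (fun a (i : S) => bl s i a) := by
    funext ω
    exact dep_ex hs S F hF ω
  have e2 : (fun ω => G (fun q => s q ω)) = (fun x => G (ex T x)) ∘
      (fun a (i : T) => bl s i a) := by
    funext ω
    exact dep_ex hs T G hG ω
  rw [← e1, ← e2] at h2
  exact h2.integral_fun_mul_eq_mul_integral (int_dep hs S F hF).aestronglyMeasurable
    (int_dep hs T G hG).aestronglyMeasurable

lemma int_eq [IsProbabilityMeasure P] (hs : Fair P s) (S : Finset ℕ) (F : (ℕ → ℝ) → ℝ)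
    (hF : Dep S F) :
    ∫ ω, F (fun q => s q ω) ∂P = ∑ x : S → Bool, (P.map (X s S)).real {x} * F (ex S x) := by
  have h : (fun ω => F (fun q => s q ω)) = (fun ω => (fun x => F (ex S x)) (X s S ω)) := by
    funext ω
    exact dep_ex hs S F hF ω
  have := Measure.isProbabilityMeasure_map (μ := P) (X_meas hs S).aemeasurable
  rw [h]
  have h2 : ∫ ω, (fun x => F (ex S x)) (X s S ω) ∂P = ∫ x, F (ex S x) ∂(P.map (X s S)) :=
    (integral_map (X_meas hs S).aemeasurable
      (measurable_of_countable (fun x => F (ex S x))).aestronglyMeasurable).symm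
  rw [h2, integral_fintype]
  · simp
  · exact Integrable.of_finite

lemma int_one [IsProbabilityMeasure P] (hs : Fair P s) (q : ℕ) : ∫ ω, s q ω ∂P = 0 := by
  have hm : MeasurableSet {ω | s q ω = 1} := hs.meas q (measurableSet_singleton 1)
  have h : (fun ω => s q ω) = fun ω => 2 * Set.indicator {ω | s q ω = 1} (fun _ => (1 : ℝ)) ω - 1 := by
    funext ω
    rcases hs.sgn q ω with h | h
    · rw [Set.indicator_of_mem (by exact h), h]; norm_num
    · rw [Set.indicator_of_notMem (by
        intro h3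
        rw [Set.mem_ofPred_eq, h] at h3
        norm_num at h3), h]
      norm_num
  have hi : Integrable (Set.indicator {ω | s q ω = 1} (fun _ => (1 : ℝ))) P :=
    (integrable_const (1 : ℝ)).indicator hm
  rw [h, integral_sub (hi.const_mul 2) (integrable_const 1), integral_const_mul,
    integral_indicator_const _ hm, measureReal_def, hs.one q]
  simp

lemma dep_prod (S : Finset ℕ) (g : ℕ → ℝ → ℝ) : Dep S (fun e => ∏ q ∈ S, g q (e q)) := by
  intro e e' h
  exact Finset.prod_congr rfl fun q hq => by rw [h q hq]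

lemma dep_mono {S T : Finset ℕ} (h : S ⊆ T) {F : (ℕ → ℝ) → ℝ} (hF : Dep S F) : Dep T F :=
  fun e e' he => hF e e' fun q hq => he q (h hq)

lemma int_prod [IsProbabilityMeasure P] (hs : Fair P s) (m : ℕ → ℝ) (S : Finset ℕ) :
    ∫ ω, (∏ q ∈ S, (1 + m q * s q ω)) ∂P = 1 := by
  induction S using Finset.induction_on with
  | empty => simp
  | insert p S hp ih =>
    have h := ind_mul hs {p} S (by simpa using hp) (fun e => ∏ q ∈ {p}, (1 + m q * e q))
      (fun e => ∏ q ∈ S, (1 + m q * e q)) (dep_prod {p} fun q y => 1 + m q * y)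
      (dep_prod S fun q y => 1 + m q * y)
    simp only [Finset.prod_singleton] at h
    simp only [Finset.prod_insert hp]
    rw [h, ih, mul_one]
    have hi : Integrable (fun ω => s p ω) P :=
      int_dep hs {p} (fun e => e p) (fun e e' h => h p (by simp))
    rw [integral_add (integrable_const 1) (hi.const_mul _), integral_const_mul, int_one hs p]
    simp

end base

lemma R_pos (N : ℕ) : 0 < R N := by
  unfold R
  exact Finset.prod_pos fun q _ => by positivity

lemma mem_pr {N q : ℕ} : q ∈ pr N ↔ q ≤ N ∧ q.Prime := by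
  unfold pr
  rw [Finset.mem_filter, Finset.mem_Icc]
  constructor
  · rintro ⟨⟨_, h⟩, h2⟩
    exact ⟨h, h2⟩
  · rintro ⟨h, h2⟩
    exact ⟨⟨h2.one_lt.le, h⟩, h2⟩

lemma mem_blk {N' N q : ℕ} : q ∈ blk N' N ↔ N' < q ∧ q ≤ N ∧ q.Prime := by
  unfold blk
  rw [Finset.mem_filter, Finset.mem_Ioc, and_assoc]

lemma pr_disj (N' N : ℕ) : Disjoint (pr N') (blk N' N) := by
  rw [Finset.disjoint_left]
  intro q h h2
  rw [mem_pr] at h
  rw [mem_blk] at h2
  omega

lemma pr_union {N' N : ℕ} (h : N' ≤ N) : pr N = pr N' ∪ blk N' N := by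
  ext q
  rw [Finset.mem_union, mem_pr, mem_pr, mem_blk]
  constructor
  · rintro ⟨h1, h2⟩
    rcases Nat.lt_or_ge N' q with h3 | h3
    · exact Or.inr ⟨h3, h1, h2⟩
    · exact Or.inl ⟨h3, h2⟩
  · rintro (⟨h1, h2⟩ | ⟨_, h1, h2⟩)
    · exact ⟨h1.trans h, h2⟩
    · exact ⟨h1, h2⟩

lemma fac_eq (t : ℝ) (e : ℕ → ℝ) (q : ℕ) (hq : q ≠ 0) :
    fac 0 t e q = (1 + 1 / (q : ℝ)) * (1 + tl t q * e q) := by
  have hq' : (0 : ℝ) < q := by exact_mod_cast Nat.pos_of_ne_zero hq
  have h1 : (q : ℝ) ^ (-(1 + 2 * 0) : ℝ) = 1 / (q : ℝ) := by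
    rw [mul_zero, add_zero, Real.rpow_neg hq'.le, Real.rpow_one, one_div]
  have h2 : (1 + 1 / (q : ℝ)) ≠ 0 := by positivity
  unfold fac tl
  rw [h1, add_zero, mul_add, mul_one, ← mul_assoc, mul_div_cancel₀ _ h2]
  ring

lemma D_eq (t : ℝ) (e : ℕ → ℝ) (N : ℕ) : D N e t = R N * ∏ q ∈ pr N, (1 + tl t q * e q) := by
  unfold D R
  rw [← Finset.prod_mul_distrib]
  apply Finset.prod_congr rfl
  intro q hq
  exact fac_eq t e q (mem_pr.1 hq).2.ne_zero

lemma D_div (t : ℝ) (e : ℕ → ℝ) (N : ℕ) : D N e t / R N = ∏ q ∈ pr N, (1 + tl t q * e q) := by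
  rw [D_eq, mul_div_cancel_left₀ _ (R_pos N).ne']

/-- IND -/
theorem ind : S_IND := by
  intro Ω _ P _ s hs t N' N hN A B hA hB
  refine ⟨?_, int_prod hs (tl t) (blk N' N)⟩
  have h := ind_mul hs (pr N') (blk N' N) (pr_disj N' N)
    (fun e => D N' e t / R N' * (if A e then (1 : ℝ) else 0))
    (fun e => (∏ q ∈ blk N' N, (1 + tl t q * e q)) * (if B e then (1 : ℝ) else 0))
    (by
      intro e e' he
      simp only
      rw [D_div, D_div, if_congr (hA e e' he) rfl rfl,
        Finset.prod_congr rfl fun q hq => by rw [he q hq]])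
    (by
      intro e e' he
      simp only
      rw [if_congr (hB e e' he) rfl rfl, Finset.prod_congr rfl fun q hq => by rw [he q hq]])
  rw [← h]
  apply integral_congr_ae
  apply Filter.Eventually.of_forall
  intro ω
  simp only
  rw [D_div, D_div, pr_union hN, Finset.prod_union (pr_disj N' N)]
  by_cases hA' : A (fun q => s q ω) <;> by_cases hB' : B (fun q => s q ω) <;> simp [hA', hB']

end Pool.Agent.P8H7.RM
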