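import Pool.Agent.P8H7.RM.Ind

/-!
# Project RM: the mean of the stopped quotients tends to zero
-/

set_option autoImplicit false

namespace Pool.Agent.P8H7.RM

open Finset MeasureTheory ProbabilityTheory Filter Topology
open scoped Classical
open Pool.Agent.P8H15.RM

lemma pr_mono {j N : ℕ} (h : j ≤ N) : pr j ⊆ pr N := by
  intro q hq
  rw [mem_pr] at *
  exact ⟨hq.1.trans h, hq.2⟩

lemma D_congr (N : ℕ) (e e' : ℕ → ℝ) (h : ∀ q ∈ pr N, e q = e' q) (t : ℝ) :
    D N e t = D N e' t := by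
  unfold D fac
  exact Finset.prod_congr rfl fun q hq => by rw [h q hq]

lemma J_congr (N : ℕ) (e e' : ℕ → ℝ) (h : ∀ q ∈ pr N, e q = e' q) : J N e = J N e' := by
  unfold J
  simp only [D_congr N e e' h]

lemma low_congr (K : ℝ) (N : ℕ) (e e' : ℕ → ℝ) (h : ∀ q ∈ pr N, e q = e' q) :
    Low K N e ↔ Low K N e' := by
  unfold Low
  apply forall_congr'
  intro j
  constructor
  · intro h1 hj
    rw [← J_congr j e e' fun q hq => h q (pr_mono hj hq)]
    exact h1 hj
  · intro h1 hj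
    rw [J_congr j e e' fun q hq => h q (pr_mono hj hq)]
    exact h1 hj

lemma low_mono {K : ℝ} {N' N : ℕ} (h : N' ≤ N) {e : ℕ → ℝ} (he : Low K N e) : Low K N' e :=
  fun j hj => he j (hj.trans h)

lemma fac_nonneg (t : ℝ) (e : ℕ → ℝ) (he : Sgn e) (q : ℕ) : 0 ≤ fac 0 t e q := by
  have hq : (0 : ℝ) ≤ q := Nat.cast_nonneg q
  rcases Nat.eq_zero_or_pos q with h0 | h0
  · subst h0
    unfold fac
    rw [Nat.cast_zero, Real.zero_rpow (by norm_num), Real.zero_rpow (by norm_num)]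
    norm_num
  · have hq' : (0 : ℝ) < q := by exact_mod_cast h0
    have h1 : (q : ℝ) ^ (-(1 + 2 * 0) : ℝ) = ((q : ℝ) ^ (-(1 / 2 + 0) : ℝ)) ^ 2 := by
      rw [← Real.rpow_natCast, ← Real.rpow_mul hq]
      norm_num
    unfold fac
    rw [h1]
    set y := (q : ℝ) ^ (-(1 / 2 + 0) : ℝ)
    set c := Real.cos (t * Real.log q)
    have he2 : e q ^ 2 = 1 := by
      rcases he q with h | h <;> rw [h] <;> norm_num
    have hc : c ^ 2 ≤ 1 := Real.cos_sq_le_one _
    have h3 : 1 - 2 * e q * y * c + y ^ 2 = (1 - e q * y * c) ^ 2 + y ^ 2 * (1 - e q ^ 2 * c ^ 2) := by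
      ring
    rw [h3, he2]
    have : 0 ≤ y ^ 2 * (1 - 1 * c ^ 2) := mul_nonneg (sq_nonneg _) (by linarith)
    positivity

lemma D_nonneg (N : ℕ) (e : ℕ → ℝ) (he : Sgn e) (t : ℝ) : 0 ≤ D N e t :=
  Finset.prod_nonneg fun q _ => fac_nonneg t e he q

lemma D_cont (N : ℕ) (e : ℕ → ℝ) : Continuous (fun t => D N e t) := by
  unfold D fac
  apply continuous_finsetProd
  intro q _
  fun_prop

lemma D_bdd (N : ℕ) (e : ℕ → ℝ) : ∃ C : ℝ, ∀ t, |D N e t| ≤ C := by
  refine ⟨∏ q ∈ pr N, (1 + |2 * e q * (q : ℝ) ^ (-(1 / 2 + 0) : ℝ)| + |(q : ℝ) ^ (-(1 + 2 * 0) : ℝ)|),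
    fun t => ?_⟩
  unfold D
  rw [Finset.abs_prod]
  apply Finset.prod_le_prod (fun _ _ => abs_nonneg _)
  intro q _
  unfold fac
  have h1 : |2 * e q * (q : ℝ) ^ (-(1 / 2 + 0) : ℝ) * Real.cos (t * Real.log q)| ≤
      |2 * e q * (q : ℝ) ^ (-(1 / 2 + 0) : ℝ)| := by
    rw [abs_mul]
    exact mul_le_of_le_one_right (abs_nonneg _) (Real.abs_cos_le_one _)
  calc |1 - 2 * e q * (q : ℝ) ^ (-(1 / 2 + 0) : ℝ) * Real.cos (t * Real.log q) +
        (q : ℝ) ^ (-(1 + 2 * 0) : ℝ)|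
      ≤ |1 - 2 * e q * (q : ℝ) ^ (-(1 / 2 + 0) : ℝ) * Real.cos (t * Real.log q)| +
        |(q : ℝ) ^ (-(1 + 2 * 0) : ℝ)| := abs_add_le _ _
    _ ≤ |(1 : ℝ)| + |2 * e q * (q : ℝ) ^ (-(1 / 2 + 0) : ℝ) * Real.cos (t * Real.log q)| +
        |(q : ℝ) ^ (-(1 + 2 * 0) : ℝ)| := by
      gcongr
      exact abs_sub _ _
    _ ≤ _ := by
      rw [abs_one]
      gcongr

lemma int_bd : Integrable (fun t : ℝ => 1 / (1 / 4 + t ^ 2)) := by
  apply (integrable_inv_one_add_sq.const_mul (4 : ℝ)).mono'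
  · apply Continuous.aestronglyMeasurable
    apply Continuous.div continuous_const (by fun_prop)
    intro t
    positivity
  · apply Filter.Eventually.of_forall
    intro t
    rw [Real.norm_of_nonneg (by positivity), ← div_eq_mul_inv, div_le_div_iff₀ (by positivity)
      (by positivity)]
    nlinarith [sq_nonneg t]

lemma D_int (N : ℕ) (e : ℕ → ℝ) : Integrable (fun t : ℝ => D N e t / (1 / 4 + t ^ 2)) := by
  obtain ⟨C, hC⟩ := D_bdd N e
  apply (int_bd.const_mul C).mono'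
  · apply Continuous.aestronglyMeasurable
    apply Continuous.div (D_cont N e) (by fun_prop)
    intro t
    positivity
  · apply Filter.Eventually.of_forall
    intro t
    rw [Real.norm_eq_abs, abs_div, abs_of_nonneg (by positivity : (0 : ℝ) ≤ 1 / 4 + t ^ 2),
      mul_one_div]
    gcongr
    exact hC t

section main

variable {Ω : Type} [MeasurableSpace Ω] (P : Measure Ω) (s : ℕ → Ω → ℝ)

/-- the mean of the stopped density -/
noncomputable def g (K : ℝ) (N : ℕ) (t : ℝ) : ℝ :=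
  ∫ ω, D N (fun q => s q ω) t / R N * (if Low K N (fun q => s q ω) then (1 : ℝ) else 0) ∂P

variable {P s}

lemma sgn_s (hs : Fair P s) (ω : Ω) : Sgn (fun q => s q ω) := fun q => hs.sgn q ω

lemma dep_g (K : ℝ) (N : ℕ) (t : ℝ) :
    Dep (pr N) (fun e => D N e t / R N * (if Low K N e then (1 : ℝ) else 0)) := by
  intro e e' h
  simp only
  rw [D_congr N e e' h, if_congr (low_congr K N e e' h) rfl rfl]

lemma dep_D (N : ℕ) (t : ℝ) : Dep (pr N) (fun e => D N e t / R N) := by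
  intro e e' h
  simp only
  rw [D_congr N e e' h]

lemma g_nonneg (hs : Fair P s) (K : ℝ) (N : ℕ) (t : ℝ) : 0 ≤ g P s K N t := by
  apply integral_nonneg
  intro ω
  apply mul_nonneg (div_nonneg (D_nonneg N _ (sgn_s hs ω) t) (R_pos N).le)
  split_ifs <;> norm_num

lemma g_le_one [IsProbabilityMeasure P] (hs : Fair P s) (K : ℝ) (N : ℕ) (t : ℝ) :
    g P s K N t ≤ 1 := by
  have h1 : ∫ ω, D N (fun q => s q ω) t / R N ∂P = 1 := by
    simp only [D_div]
    exact int_prod hs (tl t) (pr N)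
  rw [← h1]
  apply integral_mono (int_dep hs (pr N) _ (dep_g K N t)) (int_dep hs (pr N) _ (dep_D N t))
  intro ω
  simp only
  apply mul_le_of_le_one_right (div_nonneg (D_nonneg N _ (sgn_s hs ω) t) (R_pos N).le)
  split_ifs <;> norm_num

/-- one step with an event `B` on the block -/
lemma g_step [IsProbabilityMeasure P] (hI : S_IND) (hs : Fair P s) (K : ℝ) {N' N : ℕ} (h : N' ≤ N)
    (t : ℝ) (B : (ℕ → ℝ) → Prop)
    (hB : ∀ e e' : ℕ → ℝ, (∀ q ∈ blk N' N, e q = e' q) → (B e ↔ B e'))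
    (hLB : ∀ e : ℕ → ℝ, Sgn e → Low K N e → B e) :
    g P s K N t ≤ g P s K N' t *
      ∫ ω, (∏ q ∈ blk N' N, (1 + tl t q * s q ω)) *
        (if B (fun q => s q ω) then (1 : ℝ) else 0) ∂P := by
  have h1 := (hI Ω P s hs t N' N h (Low K N') B (low_congr K N') hB).1
  unfold g
  rw [← h1]
  apply integral_mono (int_dep hs (pr N) _ (dep_g K N t))
  · apply int_dep hs (pr N) (fun e => D N e t / R N * (if Low K N' e ∧ B e then (1 : ℝ) else 0))
    intro e e' he
    simp only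
    rw [D_congr N e e' he, if_congr (and_congr (low_congr K N' e e' fun q hq => he q (pr_mono h hq))
      (hB e e' fun q hq => he q (by rw [pr_union h]; exact Finset.mem_union_right _ hq))) rfl rfl]
  · intro ω
    simp only
    apply mul_le_mul_of_nonneg_left _ (div_nonneg (D_nonneg N _ (sgn_s hs ω) t) (R_pos N).le)
    by_cases hL : Low K N (fun q => s q ω)
    · rw [if_pos hL, if_pos ⟨low_mono h hL, hLB _ (sgn_s hs ω) hL⟩]
    · rw [if_neg hL]
      split_ifs <;> norm_num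

lemma g_anti [IsProbabilityMeasure P] (hI : S_IND) (hs : Fair P s) (K : ℝ) {N' N : ℕ} (h : N' ≤ N)
    (t : ℝ) : g P s K N t ≤ g P s K N' t := by
  have h1 := g_step hI hs K h t (fun _ => True) (fun _ _ _ => Iff.rfl) (fun _ _ _ => trivial)
  simp only [if_true, mul_one] at h1
  rwa [int_prod hs (tl t) (blk N' N), mul_one] at h1

lemma g_drop [IsProbabilityMeasure P] (hPZ : S_PZ) (hLG : S_LG) (hI : S_IND) (hs : Fair P s) (K : ℝ)
    (t : ℝ) (ht : t ≠ 0) (N' : ℕ) (hN' : 16 ≤ N') :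
    ∃ N, N' < N ∧ g P s K N t ≤ 199 / 200 * g P s K N' t := by
  obtain ⟨N, hN, hV, ham, hlin⟩ := hLG t ht K N' hN'
  refine ⟨N, hN, ?_⟩
  set a : ℕ → ℝ := fun q => cf (1 / Real.log N) t q with ha
  have hlc : ∀ e e' : ℕ → ℝ, (∀ q ∈ blk N' N, e q = e' q) →
      ∑ q ∈ blk N' N, a q * (e q - tl t q) = ∑ q ∈ blk N' N, a q * (e' q - tl t q) :=
    fun e e' he => Finset.sum_congr rfl fun q hq => by rw [he q hq]
  have hpc : ∀ e e' : ℕ → ℝ, (∀ q ∈ blk N' N, e q = e' q) →
      ∏ q ∈ blk N' N, (1 + tl t q * e q) = ∏ q ∈ blk N' N, (1 + tl t q * e' q) :=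
    fun e e' he => Finset.prod_congr rfl fun q hq => by rw [he q hq]
  have hz := hPZ Ω P s hs (blk N' N) a (tl t) (fun q hq => (ham q hq).1) (fun q hq => (ham q hq).2) hV
  have h1 := g_step hI hs K hN.le t
    (fun e => ∑ q ∈ blk N' N, a q * (e q - tl t q) < √(∑ q ∈ blk N' N, a q ^ 2) / 16)
    (fun e e' he => by rw [hlc e e' he])
    (fun e he hL => hlin e he (hL N le_rfl))
  refine h1.trans ?_
  rw [mul_comm]
  apply mul_le_mul_of_nonneg_right _ (g_nonneg hs K N' t)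
  have h2 : ∫ ω, (∏ q ∈ blk N' N, (1 + tl t q * s q ω)) *
        (if ∑ q ∈ blk N' N, a q * (s q ω - tl t q) < √(∑ q ∈ blk N' N, a q ^ 2) / 16
          then (1 : ℝ) else 0) ∂P +
      ∫ ω, (∏ q ∈ blk N' N, (1 + tl t q * s q ω)) *
        (if √(∑ q ∈ blk N' N, a q ^ 2) / 16 ≤ ∑ q ∈ blk N' N, a q * (s q ω - tl t q)
          then (1 : ℝ) else 0) ∂P = 1 := by
    rw [← integral_add]
    · refine Eq.trans ?_ (int_prod hs (tl t) (blk N' N))
      apply integral_congr_ae
      apply Filter.Eventually.of_forall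
      intro ω
      simp only
      by_cases hc : ∑ q ∈ blk N' N, a q * (s q ω - tl t q) < √(∑ q ∈ blk N' N, a q ^ 2) / 16
      · rw [if_pos hc, if_neg (not_le.2 hc)]
        ring
      · rw [if_neg hc, if_pos (not_lt.1 hc)]
        ring
    · apply int_dep hs (blk N' N) (fun e => (∏ q ∈ blk N' N, (1 + tl t q * e q)) *
        (if ∑ q ∈ blk N' N, a q * (e q - tl t q) < √(∑ q ∈ blk N' N, a q ^ 2) / 16
          then (1 : ℝ) else 0))
      intro e e' he
      simp only
      rw [hpc e e' he, hlc e e' he]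
    · apply int_dep hs (blk N' N) (fun e => (∏ q ∈ blk N' N, (1 + tl t q * e q)) *
        (if √(∑ q ∈ blk N' N, a q ^ 2) / 16 ≤ ∑ q ∈ blk N' N, a q * (e q - tl t q)
          then (1 : ℝ) else 0))
      intro e e' he
      simp only
      rw [hpc e e' he, hlc e e' he]
  linarith

lemma g_tend [IsProbabilityMeasure P] (hPZ : S_PZ) (hLG : S_LG) (hI : S_IND) (hs : Fair P s) (K : ℝ)
    (t : ℝ) (ht : t ≠ 0) : Tendsto (fun N => g P s K N t) atTop (𝓝 0) := by
  have h1 : ∀ k : ℕ, ∃ N, 16 ≤ N ∧ g P s K N t ≤ (199 / 200 : ℝ) ^ k := by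
    intro k
    induction k with
    | zero => exact ⟨16, le_rfl, by rw [pow_zero]; exact g_le_one hs K 16 t⟩
    | succ k ih =>
      obtain ⟨N', hN', h2⟩ := ih
      obtain ⟨N, hN, h3⟩ := g_drop hPZ hLG hI hs K t ht N' hN'
      refine ⟨N, by omega, h3.trans ?_⟩
      rw [pow_succ']
      gcongr
  rw [Metric.tendsto_atTop]
  intro ε hε
  obtain ⟨k, hk⟩ := exists_pow_lt_of_lt_one hε (by norm_num : (199 / 200 : ℝ) < 1)
  obtain ⟨N', _, h2⟩ := h1 k
  refine ⟨N', fun N hN => ?_⟩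
  rw [Real.dist_eq, sub_zero, abs_of_nonneg (g_nonneg hs K N t)]
  exact ((g_anti hI hs K hN t).trans h2).trans_lt hk

lemma g_sum [IsProbabilityMeasure P] (hs : Fair P s) (K : ℝ) (N : ℕ) (t : ℝ) :
    g P s K N t = ∑ x : pr N → Bool, (P.map (X s (pr N))).real {x} *
      (D N (ex (pr N) x) t / R N * (if Low K N (ex (pr N) x) then (1 : ℝ) else 0)) :=
  int_eq hs (pr N) _ (dep_g K N t)

lemma g_cont [IsProbabilityMeasure P] (hs : Fair P s) (K : ℝ) (N : ℕ) :
    Continuous (fun t => g P s K N t) := by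
  simp only [g_sum hs K N]
  apply continuous_finsetSum
  intro x _
  have := D_cont N (ex (pr N) x)
  fun_prop

lemma fub [IsProbabilityMeasure P] (hs : Fair P s) (K : ℝ) (N : ℕ) :
    ∫ ω, J N (fun q => s q ω) / R N * (if Low K N (fun q => s q ω) then (1 : ℝ) else 0) ∂P =
      1 / (2 * Real.pi) * ∫ t : ℝ, g P s K N t / (1 / 4 + t ^ 2) := by
  rw [int_eq hs (pr N) (fun e => J N e / R N * (if Low K N e then (1 : ℝ) else 0))
    (by
      intro e e' he
      simp only
      rw [J_congr N e e' he, if_congr (low_congr K N e e' he) rfl rfl])]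
  have h1 : ∀ t : ℝ, g P s K N t / (1 / 4 + t ^ 2) = ∑ x : pr N → Bool,
      (P.map (X s (pr N))).real {x} * (if Low K N (ex (pr N) x) then (1 : ℝ) else 0) / R N *
      (D N (ex (pr N) x) t / (1 / 4 + t ^ 2)) := by
    intro t
    rw [g_sum hs K N t, Finset.sum_div]
    apply Finset.sum_congr rfl
    intro x _
    ring
  simp only [h1]
  rw [integral_finsetSum _ fun x _ => (D_int N (ex (pr N) x)).const_mul _, Finset.mul_sum]
  apply Finset.sum_congr rfl
  intro x _
  rw [integral_const_mul]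
  unfold J
  ring

end main

/-- TO (`to` is a reserved word) -/
theorem t_TO : S_PZ → S_LG → S_IND → S_TO := by
  intro hPZ hLG hI Ω _ P _ s hs K
  simp only [fub hs K]
  have h0 : (0 : ℝ) = 1 / (2 * Real.pi) * ∫ _t : ℝ, (0 : ℝ) := by simp
  rw [h0]
  apply Tendsto.const_mul
  apply tendsto_integral_of_dominated_convergence (fun t : ℝ => 1 / (1 / 4 + t ^ 2))
  · intro N
    apply Continuous.aestronglyMeasurable
    apply Continuous.div (g_cont hs K N) (by fun_prop)
    intro t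
    positivity
  · exact int_bd
  · intro N
    apply Filter.Eventually.of_forall
    intro t
    rw [Real.norm_of_nonneg (div_nonneg (g_nonneg hs K N t) (by positivity))]
    gcongr
    exact g_le_one hs K N t
  · have h1 : ∀ᵐ t : ℝ, t ≠ 0 := by
      rw [ae_iff]
      simp
    filter_upwards [h1] with t ht
    have h2 := (g_tend hPZ hLG hI hs K t ht).div_const (1 / 4 + t ^ 2)
    rwa [zero_div] at h2

end Pool.Agent.P8H7.RM
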